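import Pool.Agent.Helper53_CookLevin.Num

/-!
# More polynomial-time word generators: conditions, reversal, counting
-/

namespace Pool.Agent.Helper53_Chan

open Pool.Agent.Helper53_CookLevin

variable {C : Type}

/-- a condition on words which can be tested by a generator -/
def Test (m : ℕ) (P : (Fin m → List C) → Prop) : Prop :=
  ∃ T : (Fin m → List C) → List C, PGen m T ∧ ∀ ρ, T ρ = [] ↔ P ρ

theorem vecCons_comp_succ {m : ℕ} {α : Type} (w : α) (ρ : Fin m → α) :
    (Matrix.vecCons w ρ) ∘ Fin.succ = ρ := by
  funext i
  simp

theorem Test.ite {m : ℕ} {P : (Fin m → List C) → Prop} [∀ ρ, Decidable (P ρ)]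
    {F G : (Fin m → List C) → List C} (hP : Test m P) (hF : PGen m F) (hG : PGen m G) :
    PGen m (fun ρ => if P ρ then F ρ else G ρ) := by
  obtain ⟨T, hT, h⟩ := hP
  have h1 : PGen (m + 1) (fun ρ => F (ρ ∘ Fin.succ)) := PGen.rename Fin.succ hF
  have h2 : PGen (m + 1) (fun ρ => G (ρ ∘ Fin.succ)) := PGen.rename Fin.succ hG
  let K : Option C → (Fin (m + 1) → List C) → List C := fun o =>
    match o with
    | none => fun ρ => F (ρ ∘ Fin.succ)
    | some _ => fun ρ => G (ρ ∘ Fin.succ)
  have hK : ∀ c, PGen (m + 1) (K c) := by
    intro c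
    cases c with
    | none => exact h1
    | some c => exact h2
  have h3 := PGen.letw hT (PGen.caseLast (0 : Fin (m + 1)) K hK)
  have e : (fun ρ => if P ρ then F ρ else G ρ) =
      (fun ρ => K ((Matrix.vecCons (T ρ) ρ : Fin (m + 1) → List C) 0).getLast?
        (Matrix.vecCons (T ρ) ρ)) := by
    funext ρ
    rw [Matrix.cons_val_zero]
    by_cases hp : P ρ
    · rw [if_pos hp, (h ρ).2 hp, List.getLast?_nil]
      show F ρ = F ((Matrix.vecCons [] ρ) ∘ Fin.succ)
      rw [vecCons_comp_succ]
    · rw [if_neg hp]
      have hne : T ρ ≠ [] := fun h' => hp ((h ρ).1 h')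
      rw [List.getLast?_eq_getLast_of_ne_nil hne]
      show G ρ = G ((Matrix.vecCons (T ρ) ρ) ∘ Fin.succ)
      rw [vecCons_comp_succ]
  rw [e]
  exact h3

theorem Test.and {m : ℕ} {P Q : (Fin m → List C) → Prop} (hP : Test m P) (hQ : Test m Q) :
    Test m (fun ρ => P ρ ∧ Q ρ) := by
  obtain ⟨T, hT, h⟩ := hP
  obtain ⟨T', hT', h'⟩ := hQ
  refine ⟨_, PGen.append hT hT', fun ρ => ?_⟩
  rw [List.append_eq_nil_iff, h, h']

theorem PGen.dropF {m : ℕ} {F G : (Fin m → List C) → List C} (hF : PGen m F) (hG : PGen m G) :
    PGen m (fun ρ => (F ρ).drop (G ρ).length) := by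
  have h1 : PGen (m + 1) (fun ρ => G (ρ ∘ Fin.succ)) := PGen.rename Fin.succ hG
  have h2 := PGen.letw hF (PGen.letw h1 (PGen.drop (1 : Fin (m + 2)) 0))
  have e : (fun ρ => (F ρ).drop (G ρ).length) = (fun ρ => List.drop
      (((Matrix.vecCons (G ((Matrix.vecCons (F ρ) ρ) ∘ Fin.succ)) (Matrix.vecCons (F ρ) ρ)) :
        Fin (m + 2) → List C) 0).length
      (((Matrix.vecCons (G ((Matrix.vecCons (F ρ) ρ) ∘ Fin.succ)) (Matrix.vecCons (F ρ) ρ)) :
        Fin (m + 2) → List C) 1)) := by
    funext ρ
    rw [vecCons_comp_succ]
    simp
  rw [e]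
  exact h2

theorem Test.lenLe {m : ℕ} {F G : (Fin m → List C) → List C} (hF : PGen m F) (hG : PGen m G) :
    Test m (fun ρ => (F ρ).length ≤ (G ρ).length) :=
  ⟨_, PGen.dropF hF hG, fun ρ => by rw [List.drop_eq_nil_iff]⟩

theorem Test.congr {m : ℕ} {P Q : (Fin m → List C) → Prop} (hP : Test m P)
    (h : ∀ ρ, P ρ ↔ Q ρ) : Test m Q := by
  obtain ⟨T, hT, h'⟩ := hP
  exact ⟨T, hT, fun ρ => (h' ρ).trans (h ρ)⟩

theorem Test.lenEq {m : ℕ} {F G : (Fin m → List C) → List C} (hF : PGen m F) (hG : PGen m G) :
    Test m (fun ρ => (F ρ).length = (G ρ).length) :=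
  Test.congr (Test.and (Test.lenLe hF hG) (Test.lenLe hG hF)) (fun _ => by omega)

theorem Test.empty {m : ℕ} {F : (Fin m → List C) → List C} (hF : PGen m F) :
    Test m (fun ρ => F ρ = []) := ⟨F, hF, fun _ => Iff.rfl⟩

theorem PGen.congr {m : ℕ} {F G : (Fin m → List C) → List C} (hF : PGen m F)
    (h : ∀ ρ, F ρ = G ρ) : PGen m G := by
  have : F = G := funext h
  rwa [← this]

theorem scan_self_prefix : ∀ (p l : List C), scan (fun _ c => [c]) p l = l
  | _, [] => rfl
  | p, c :: l => by
    rw [scan, scan_self_prefix (p ++ [c]) l]
    rfl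

/-- variables are generators -/
theorem PGen.var {m : ℕ} (j : Fin m) : PGen m (fun ρ : Fin m → List C => ρ j) :=
  PGen.congr (PGen.loop j (fun c _ => [c]) (fun c => PGen.const [c]))
    (fun ρ => scan_self_prefix _ _)

theorem scan_congr {f g : List C → C → List C} : ∀ (p l : List C),
    (∀ q c, f q c = g q c) → scan f p l = scan g p l
  | _, [], _ => rfl
  | p, c :: l, h => by
    rw [scan, scan, h, scan_congr (p ++ [c]) l h]

/-- loop over a word, for a body given by a function of the prefix, the letter and the
variables -/
theorem PGen.loopG {m : ℕ} {F : (Fin m → List C) → List C} (hF : PGen m F)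
    {K : C → List C → (Fin m → List C) → List C}
    (h : ∀ c, PGen (m + 1) (fun ρ => K c (ρ 0) (ρ ∘ Fin.succ))) :
    PGen m (fun ρ => scan (fun p c => K c p ρ) [] (F ρ)) := by
  have h0 : ∀ c, PGen (m + 2) (fun ρ : Fin (m + 2) → List C =>
      (fun ρ' : Fin (m + 1) → List C => K c (ρ' 0) (ρ' ∘ Fin.succ))
        (ρ ∘ (Matrix.vecCons 0 (fun i => i.succ.succ)))) := fun c => PGen.rename _ (h c)
  have h1 := PGen.letw hF (PGen.loop (0 : Fin (m + 1)) _ h0)
  refine PGen.congr h1 (fun ρ => ?_)
  simp only [Matrix.cons_val_zero]
  refine scan_congr _ _ (fun q c => ?_)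
  congr 1

theorem scan_replicate (u : C) (g : List C → List C) : ∀ (n k : ℕ),
    scan (fun p _ => g p) (List.replicate k u) (List.replicate n u) =
      (List.range n).flatMap (fun i => g (List.replicate (k + i) u))
  | 0, k => rfl
  | n + 1, k => by
    rw [List.replicate_succ, scan]
    have e : List.replicate k u ++ [u] = List.replicate (k + 1) u := by
      rw [List.replicate_add]; rfl
    rw [e, scan_replicate u g n (k + 1), List.range_succ_eq_map, List.flatMap_cons,
      List.flatMap_map]
    congr 1
    congr 1
    funext i
    congr 2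
    omega

/-- loop over the numbers below a number in unary -/
theorem PGen.loopRange {m : ℕ} {u : C} {e : (Fin m → List C) → ℕ}
    (he : PGen m (fun ρ => List.replicate (e ρ) u))
    {K : List C → (Fin m → List C) → List C}
    (h : PGen (m + 1) (fun ρ => K (ρ 0) (ρ ∘ Fin.succ))) :
    PGen m (fun ρ => (List.range (e ρ)).flatMap (fun k => K (List.replicate k u) ρ)) := by
  refine PGen.congr (PGen.loopG he (K := fun _ p ρ => K p ρ) (fun _ => h)) (fun ρ => ?_)
  have := scan_replicate u (fun p => K p ρ) (e ρ) 0
  simpa using this

/-- local definition -/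
theorem PGen.letG {m : ℕ} {F : (Fin m → List C) → List C} (hF : PGen m F)
    {K : List C → (Fin m → List C) → List C}
    (h : PGen (m + 1) (fun ρ => K (ρ 0) (ρ ∘ Fin.succ))) :
    PGen m (fun ρ => K (F ρ) ρ) :=
  PGen.congr (PGen.letw hF h) (fun ρ => by
    simp only [Matrix.cons_val_zero, vecCons_comp_succ])

/-! ### Reversal -/

theorem scan_pick (k n : ℕ) : ∀ (p l : List C),
    scan (fun q c => if q.length + k + 1 = n then [c] else []) p l =
      if p.length + k + 1 ≤ n then (l[n - (p.length + k + 1)]?).toList else []
  | p, [] => by simp [scan]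
  | p, c :: l => by
    rw [scan, scan_pick k n (p ++ [c]) l]
    simp only [List.length_append, List.length_singleton]
    by_cases h : p.length + k + 1 = n
    · subst h
      rw [if_pos rfl, if_neg (by omega), if_pos le_rfl, Nat.sub_self]
      rfl
    · rw [if_neg h]
      by_cases h2 : p.length + k + 1 ≤ n
      · rw [if_pos (by omega), if_pos h2]
        obtain ⟨d, hd⟩ : ∃ d, n = p.length + k + 1 + (d + 1) :=
          ⟨n - (p.length + k + 1) - 1, by omega⟩
        have e1 : n - (p.length + 1 + k + 1) = d := by omega
        have e2 : n - (p.length + k + 1) = d + 1 := by omega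
        rw [e1, e2, List.getElem?_cons_succ]
        rfl
      · rw [if_neg (by omega), if_neg h2]
        rfl

theorem flatMap_getElem? : ∀ (w : List C),
    (List.range w.length).flatMap (fun k => (w[k]?).toList) = w
  | [] => rfl
  | c :: w => by
    rw [List.length_cons, List.range_succ_eq_map, List.flatMap_cons, List.flatMap_map]
    simp only [List.getElem?_cons_zero, List.getElem?_cons_succ, Nat.succ_eq_add_one]
    rw [flatMap_getElem? w]
    rfl

theorem PGen.reverse {m : ℕ} {F : (Fin m → List C) → List C} (hF : PGen m F) :
    PGen m (fun ρ => (F ρ).reverse) := by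
  classical
  have hbody : ∀ c : C, PGen (m + 3) (fun ρ : Fin (m + 3) → List C =>
      if (ρ 0 ++ ρ 1 ++ [c]).length = (ρ 2).length then [c] else []) := fun c =>
    Test.ite (Test.lenEq (PGen.append (PGen.append (PGen.var 0) (PGen.var 1)) (PGen.const [c]))
      (PGen.var 2)) (PGen.const [c]) (PGen.const [])
  have h2 : PGen (m + 2) (fun ρ : Fin (m + 2) → List C =>
      scan (fun q c => if (q ++ ρ 0 ++ [c]).length = (ρ 1).length then [c] else []) [] (ρ 1)) :=
    PGen.loopG (PGen.var 1) (K := fun c q ρ =>
      if (q ++ ρ 0 ++ [c]).length = (ρ 1).length then [c] else []) (fun c => hbody c)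
  have h1 : PGen (m + 1) (fun ρ : Fin (m + 1) → List C =>
      scan (fun p _ => scan (fun q c => if (q ++ p ++ [c]).length = (ρ 0).length then [c] else [])
        [] (ρ 0)) [] (ρ 0)) :=
    PGen.loopG (PGen.var 0) (K := fun _ p ρ =>
      scan (fun q c => if (q ++ p ++ [c]).length = (ρ 0).length then [c] else []) [] (ρ 0))
      (fun _ => h2)
  refine PGen.congr (PGen.letG hF (K := fun w _ =>
    scan (fun p _ => scan (fun q c => if (q ++ p ++ [c]).length = w.length then [c] else [])
        [] w) [] w) h1) (fun ρ => ?_)
  generalize F ρ = w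
  have e1 : ∀ p : List C, scan (fun q c => if (q ++ p ++ [c]).length = w.length then [c] else [])
      [] w = if p.length + 1 ≤ w.length then (w[w.length - (p.length + 1)]?).toList else [] := by
    intro p
    have := scan_pick (C := C) p.length w.length [] w
    simp only [List.length_nil, Nat.zero_add] at this
    rw [← this]
    refine scan_congr _ _ (fun q c => ?_)
    simp only [List.length_append, List.length_singleton]
  rw [scan_length _ (fun k => if k + 1 ≤ w.length then (w[w.length - (k + 1)]?).toList else [])
    (fun q c => e1 q)]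
  simp only [List.length_nil, Nat.zero_add]
  have e2 : (List.range w.length).flatMap (fun k =>
      if k + 1 ≤ w.length then (w[w.length - (k + 1)]?).toList else []) =
      (List.range w.reverse.length).flatMap (fun k => (w.reverse[k]?).toList) := by
    rw [List.length_reverse]
    refine List.flatMap_congr (fun k hk => ?_)
    have hk' := List.mem_range.1 hk
    rw [if_pos (Nat.succ_le_of_lt hk'), List.getElem?_reverse hk']
    congr 2
    omega
  rw [e2, flatMap_getElem?]

/-! ### Counting -/

/-- the number of letters in `S` -/
def cnt (S : C → Bool) (w : List C) : ℕ := (w.filter S).length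

theorem cnt_append (S : C → Bool) (v w : List C) : cnt S (v ++ w) = cnt S v + cnt S w := by
  simp [cnt]

theorem PGen.cnt {m : ℕ} (S : C → Bool) (u : C) {F : (Fin m → List C) → List C}
    (hF : PGen m F) : PGen m (fun ρ => List.replicate (cnt S (F ρ)) u) := by
  refine PGen.congr (PGen.loopG hF (K := fun c _ _ => if S c then [u] else [])
    (fun c => PGen.const _)) (fun ρ => ?_)
  generalize F ρ = w
  have : ∀ (l p : List C), scan (fun (_ : List C) c => if S c then [u] else []) p l =
      List.replicate (Helper53_Chan.cnt S l) u := by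
    intro l
    induction l with
    | nil => intro p; rfl
    | cons c l ih =>
      intro p
      rw [scan, ih]
      unfold Helper53_Chan.cnt
      by_cases h : S c
      · rw [if_pos h, List.filter_cons_of_pos h, List.length_cons, Nat.add_comm,
          List.replicate_add]
        rfl
      · rw [if_neg h, List.filter_cons_of_neg h]
        rfl
  exact this w []

/-! ### Number of trailing letters -/

/-- number of letters `u` at the end of a word -/
def tr [DecidableEq C] (u : C) (w : List C) : ℕ :=
  w.foldl (fun k c => if c = u then k + 1 else 0) 0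

theorem tr_snoc [DecidableEq C] (u : C) (w : List C) (c : C) :
    tr u (w ++ [c]) = if c = u then tr u w + 1 else 0 := by
  simp [tr, List.foldl_append]

theorem PGen.tr [DecidableEq C] {m : ℕ} (u v : C) {F : (Fin m → List C) → List C}
    (hF : PGen m F) : PGen m (fun ρ => List.replicate (tr u (F ρ)) v) := by
  classical
  have h3 : ∀ c, PGen (m + 3) (fun ρ : Fin (m + 3) → List C =>
      if c = u then [] else if (ρ 1).length ≤ (ρ 0).length then [v] else []) := by
    intro c
    by_cases h : c = u
    · simp only [h, if_true]
      exact PGen.const []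
    · simp only [h, if_false]
      exact Test.ite (Test.lenLe (PGen.var 1) (PGen.var 0)) (PGen.const _) (PGen.const _)
  have h2 : PGen (m + 2) (fun ρ : Fin (m + 2) → List C =>
      scan (fun s c => if c = u then [] else if (ρ 0).length ≤ s.length then [v] else [])
        [] (ρ 1)) :=
    PGen.loopG (PGen.var 1) (K := fun c s ρ =>
      if c = u then [] else if (ρ 0).length ≤ s.length then [v] else []) (fun c => h3 c)
  have h2' : PGen (m + 2) (fun ρ : Fin (m + 2) → List C =>
      if scan (fun s c => if c = u then [] else if (ρ 0).length ≤ s.length then [v] else [])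
        [] (ρ 1) = [] then [v] else []) :=
    Test.ite (Test.empty h2) (PGen.const _) (PGen.const _)
  have h1 : PGen (m + 1) (fun ρ : Fin (m + 1) → List C =>
      scan (fun p _ => if scan (fun s c => if c = u then [] else
        if p.length ≤ s.length then [v] else []) [] (ρ 0) = [] then [v] else []) [] (ρ 0)) :=
    PGen.loopG (PGen.var 0) (K := fun _ p ρ =>
      if scan (fun s c => if c = u then [] else
        if p.length ≤ s.length then [v] else []) [] (ρ 0) = [] then [v] else []) (fun _ => h2')
  refine PGen.congr (PGen.letG hF (K := fun w _ =>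
    scan (fun p _ => if scan (fun s c => if c = u then [] else
        if p.length ≤ s.length then [v] else []) [] w = [] then [v] else []) [] w) h1)
    (fun ρ => ?_)
  generalize F ρ = w
  have hi : ∀ i : ℕ, ∀ (l : List C), (i = l.length → scan (fun s c => if c = u then [] else
        if i ≤ s.length then [v] else []) [] l = []) := by
    intro i l hl
    have : ∀ (l' p : List C), p.length + l'.length ≤ i → scan (fun s c => if c = u then [] else
        if i ≤ s.length then [v] else []) p l' = [] := by
      intro l'
      induction l' with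
      | nil => intro p _; rfl
      | cons c l' ih =>
        intro p hp
        rw [List.length_cons] at hp
        rw [scan, ih (p ++ [c]) (by
          rw [List.length_append, List.length_singleton]
          omega), if_neg (show ¬ i ≤ p.length by omega)]
        simp
    exact this l [] (by simp [hl])
  rw [scan_length _ (fun i => if scan (fun s c => if c = u then [] else
        if i ≤ s.length then [v] else []) [] w = [] then [v] else []) (fun q c => rfl)]
  simp only [List.length_nil, Nat.zero_add]
  induction w using List.reverseRecOn with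
  | nil => rfl
  | append_singleton w c ih =>
    rw [tr_snoc, List.length_append, List.length_singleton, List.range_succ, List.flatMap_append]
    have hs : ∀ i : ℕ, scan (fun s c => if c = u then [] else
        if i ≤ s.length then [v] else []) [] (w ++ [c]) = scan (fun s c => if c = u then [] else
        if i ≤ s.length then [v] else []) [] w ++ (if c = u then [] else
        if i ≤ w.length then [v] else []) := by
      intro i
      rw [scan_append]
      simp [scan]
    by_cases h : c = u
    · rw [if_pos h, List.replicate_add, ← ih]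
      congr 1
      · refine List.flatMap_congr (fun i _ => ?_)
        rw [hs, if_pos h, List.append_nil]
      · simp only [List.flatMap_cons, List.flatMap_nil, List.append_nil, List.replicate_one]
        rw [hs, if_pos h, List.append_nil, hi _ w rfl, if_pos rfl]
    · rw [if_neg h, List.replicate_zero, List.append_eq_nil_iff]
      constructor
      · rw [List.flatMap_eq_nil_iff]
        intro i hi'
        have hi'' := List.mem_range.1 hi'
        rw [hs, if_neg h, if_pos (show i ≤ w.length by omega), if_neg (by simp)]
      · simp only [List.flatMap_cons, List.flatMap_nil, List.append_nil]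
        rw [hs, if_neg h, if_pos (le_refl w.length), if_neg (by simp)]

end Pool.Agent.Helper53_Chan
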