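import Pool.Agent.Helper53_Chan.Cond
import Pool.Agent.Helper64_Chan.Reduce

/-!
# Generating the columns of the channel in polynomial time
-/

namespace Pool.Agent.Helper53_Chan

open Pool.Agent.Helper53_CookLevin Pool.Agent.Helper64_Chan
open Pool.Agent.Common_CookLevin (encodeCNF CNF)

/-- letters of formulas -/
abbrev FLetter : Type := Pool.Agent.Common_CookLevin.CNFLetter

/-- working alphabet -/
inductive A
  | clause | pos | neg | tick
  | e0 | e1 | e2
  | width | net | upper | lower
  deriving DecidableEq

instance : Fintype A :=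
  ⟨{.clause, .pos, .neg, .tick, .e0, .e1, .e2, .width, .net, .upper, .lower}, by
    intro x; cases x <;> decide⟩

instance : Inhabited A := ⟨.tick⟩

/-- the working letter for a letter of a formula -/
def inj : FLetter → A
  | .clause => .clause
  | .pos => .pos
  | .neg => .neg
  | .tick => .tick

/-- the word for a column -/
def encCol : Column → List A
  | none => [.e0]
  | some (a, b) => List.replicate a .tick ++ .e1 :: (List.replicate b .tick ++ [.e2])

/-- the word for a list of columns -/
def encCols (cs : List Column) : List A := cs.flatMap encCol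

theorem encCols_append (cs ds : List Column) : encCols (cs ++ ds) = encCols cs ++ encCols ds := by
  simp [encCols]

theorem encCols_cons (c : Column) (ds : List Column) :
    encCols (c :: ds) = encCol c ++ encCols ds := by
  simp [encCols]

theorem encCols_nil : encCols [] = [] := rfl

theorem encCols_flatMap {α : Type} (l : List α) (f : α → List Column) :
    encCols (l.flatMap f) = l.flatMap (fun a => encCols (f a)) := by
  induction l with
  | nil => rfl
  | cons a l ih => rw [List.flatMap_cons, encCols_append, ih, List.flatMap_cons]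

theorem encCols_blk (L : ℕ) : encCols (blk L) = List.replicate L A.e0 := by
  unfold blk
  induction L with
  | zero => rfl
  | succ n ih => rw [List.replicate_succ, encCols_cons, ih, List.replicate_succ]; rfl

/-- numerical functions -/
def NumA (m : ℕ) (e : (Fin m → ℕ) → ℕ) : Prop := ∀ u : A, Num u m e

section

variable {m : ℕ}

theorem NumA.const (c : ℕ) : NumA m (fun _ => c) := fun u => Num.const u c

theorem NumA.add {e₁ e₂ : (Fin m → ℕ) → ℕ} (h₁ : NumA m e₁) (h₂ : NumA m e₂) :
    NumA m (fun a => e₁ a + e₂ a) := fun u => Helper53_CookLevin.Num.add (h₁ u) (h₂ u)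

theorem NumA.mul {e₁ e₂ : (Fin m → ℕ) → ℕ} (h₁ : NumA m e₁) (h₂ : NumA m e₂) :
    NumA m (fun a => e₁ a * e₂ a) := fun u => Helper53_CookLevin.Num.mul (h₁ u) (h₂ u)

theorem NumA.var (j : Fin m) : NumA m (fun a => a j) := fun u => Num.var u j

theorem NumA.rename {m' : ℕ} {e : (Fin m → ℕ) → ℕ} (f : Fin m → Fin m') (h : NumA m e) :
    NumA m' (fun a => e (a ∘ f)) := fun u => Num.rename f (h u)

theorem LGen.congr {f g : (Fin m → ℕ) → List A} (hf : LGen m f) (h : ∀ a, f a = g a) :
    LGen m g := by
  have : f = g := funext h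
  rwa [← this]

theorem LGen.loopR {e : (Fin m → ℕ) → ℕ} (he : NumA m e) {K : ℕ → (Fin m → ℕ) → List A}
    (h : LGen (m + 1) (fun a => K (a 0) (a ∘ Fin.succ))) :
    LGen m (fun a => (List.range (e a)).flatMap (fun k => K k a)) := by
  refine LGen.congr (LGen.loop (he A.tick) h) (fun a => ?_)
  refine List.flatMap_congr (fun k _ => ?_)
  simp only [Matrix.cons_val_zero, vecCons_comp_succ]

theorem gen_some {a b : (Fin m → ℕ) → ℕ} (ha : NumA m a) (hb : NumA m b) :
    LGen m (fun x => encCol (some (a x, b x))) :=
  LGen.append (ha .tick) (LGen.append (LGen.const [A.e1])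
    (LGen.append (hb .tick) (LGen.const [A.e2])))

theorem gen_blk {L : (Fin m → ℕ) → ℕ} (hL : NumA m L) :
    LGen m (fun x => encCols (blk (L x))) :=
  LGen.congr (hL .e0) (fun _ => (encCols_blk _).symm)

theorem gen_someBlk {a b L : (Fin m → ℕ) → ℕ} (ha : NumA m a) (hb : NumA m b)
    (hL : NumA m L) : LGen m (fun x => encCols (some (a x, b x) :: blk (L x))) :=
  LGen.congr (LGen.append (gen_some ha hb) (gen_blk hL)) (fun _ => (encCols_cons _ _).symm)

theorem gen_tall {N L : (Fin m → ℕ) → ℕ} (hN : NumA m N) (hL : NumA m L) :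
    LGen m (fun x => encCols (tall (N x) (L x))) := by
  have h1 : LGen m (fun x => (List.range (N x + 1)).flatMap
      (fun e => encCols (some (e, N x + 1) :: blk (L x)))) :=
    LGen.loopR (NumA.add hN (NumA.const 1)) (K := fun e x => encCols (some (e, N x + 1) :: blk (L x)))
      (gen_someBlk (NumA.var 0) (NumA.add (NumA.rename Fin.succ hN) (NumA.const 1))
        (NumA.rename Fin.succ hL))
  have h2 : LGen m (fun x => (List.range (N x)).flatMap
      (fun e => encCols (some (N x, e) :: blk (L x)))) :=
    LGen.loopR hN (K := fun e x => encCols (some (N x, e) :: blk (L x)))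
      (gen_someBlk (NumA.rename Fin.succ hN) (NumA.var 0) (NumA.rename Fin.succ hL))
  refine LGen.congr (LGen.append h1 h2) (fun x => ?_)
  unfold tall
  rw [encCols_append, encCols_flatMap, encCols_flatMap]

theorem gen_side {N : (Fin m → ℕ) → ℕ} (hN : NumA m N) :
    LGen m (fun x => encCols (side (N x))) := by
  have h1 : LGen m (fun x => (List.range (N x + 2)).flatMap (fun e => encCol (some (e, e)))) :=
    LGen.loopR (NumA.add hN (NumA.const 2)) (K := fun e _ => encCol (some (e, e)))
      (gen_some (NumA.var 0) (NumA.var 0))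
  refine LGen.congr h1 (fun x => ?_)
  unfold side encCols
  rw [List.flatMap_map]

/-- columns of a list of gadgets -/
def gadCols (N L : ℕ) (gs : List Gadget) : List Column :=
  gs.flatMap (fun g => tall N L ++ gcols N L g)

theorem gadCols_append (N L : ℕ) (gs hs : List Gadget) :
    gadCols N L (gs ++ hs) = gadCols N L gs ++ gadCols N L hs := by
  simp [gadCols]

theorem gadCols_cons (N L : ℕ) (g : Gadget) (hs : List Gadget) :
    gadCols N L (g :: hs) = (tall N L ++ gcols N L g) ++ gadCols N L hs := by
  simp [gadCols]

theorem gadCols_flatMap {α : Type} (N L : ℕ) (l : List α) (f : α → List Gadget) :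
    gadCols N L (l.flatMap f) = l.flatMap (fun a => gadCols N L (f a)) := by
  induction l with
  | nil => rfl
  | cons a l ih => rw [List.flatMap_cons, gadCols_append, ih, List.flatMap_cons]

/-- generators for the columns of lists of gadgets -/
def GGen (m : ℕ) (N L : (Fin m → ℕ) → ℕ) (g : (Fin m → ℕ) → List Gadget) : Prop :=
  LGen m (fun x => encCols (gadCols (N x) (L x) (g x)))

variable {N L : (Fin m → ℕ) → ℕ}

theorem GGen.nil : GGen m N L (fun _ => []) := LGen.const []

theorem GGen.append {g h : (Fin m → ℕ) → List Gadget} (hg : GGen m N L g) (hh : GGen m N L h) :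
    GGen m N L (fun x => g x ++ h x) :=
  LGen.congr (LGen.append hg hh) (fun x => by rw [gadCols_append, encCols_append])

theorem GGen.single {g : (Fin m → ℕ) → Gadget} (hN : NumA m N) (hL : NumA m L)
    (hg : LGen m (fun x => encCols (gcols (N x) (L x) (g x)))) :
    GGen m N L (fun x => [g x]) :=
  LGen.congr (LGen.append (gen_tall hN hL) hg) (fun x => by
    rw [gadCols_cons, ← encCols_append]
    simp [gadCols])

theorem GGen.test {a b : (Fin m → ℕ) → ℕ} (hN : NumA m N) (hL : NumA m L)
    (ha : NumA m a) (hb : NumA m b) : GGen m N L (fun x => [.test (a x) (b x)]) :=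
  GGen.single hN hL (gen_someBlk ha hb hL)

theorem GGen.up {a b c : (Fin m → ℕ) → ℕ} (hN : NumA m N) (hL : NumA m L)
    (ha : NumA m a) (hb : NumA m b) (hc : NumA m c) :
    GGen m N L (fun x => [.up (a x) (b x) (c x)]) :=
  GGen.single hN hL (LGen.congr (LGen.append (gen_some ha hb) (gen_someBlk hN hc hL))
    (fun _ => (encCols_cons _ _).symm))

theorem GGen.down {a b c : (Fin m → ℕ) → ℕ} (hN : NumA m N) (hL : NumA m L)
    (ha : NumA m a) (hb : NumA m b) (hc : NumA m c) :
    GGen m N L (fun x => [.down (a x) (b x) (c x)]) :=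
  GGen.single hN hL (LGen.congr (LGen.append (gen_some hb ha) (gen_someBlk hc
    (NumA.add hN (NumA.const 1)) hL)) (fun _ => (encCols_cons _ _).symm))

theorem gen_letter (hN : NumA m N) (hL : NumA m L) {M p k : (Fin m → ℕ) → ℕ}
    (hM : NumA m M) (hp : NumA m p) (hk : NumA m k) (c : FLetter) :
    GGen m N L (fun x => letterGadgets (M x) (p x) (k x) c) := by
  have hc : ∀ c, NumA m (fun _ => c) := NumA.const
  have a0 : NumA m (fun x => 2 * M x + p x) := NumA.add (NumA.mul (hc 2) hM) hp
  have a1 : NumA m (fun x => 2 * M x + p x + 1) := NumA.add a0 (hc 1)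
  have a2 : NumA m (fun x => M x + k x) := NumA.add hM hk
  have a3 : NumA m (fun x => 3 * M x + 1) := NumA.add (NumA.mul (hc 3) hM) (hc 1)
  cases c with
  | tick => exact GGen.test hN hL a1 a0
  | pos => exact GGen.down hN hL a0 hk a1
  | neg => exact GGen.down hN hL a0 a2 a1
  | clause => exact GGen.append (GGen.test hN hL a3 a0) (GGen.test hN hL a1 a3)

end

/-! ### The gadgets given by the letters -/

/-- the number of variables is a numerical function of the length -/
def NN (M : ℕ) : ℕ := 3 * M + 2

theorem num_NN {m : ℕ} (j : Fin m) : NumA m (fun a => NN (a j)) :=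
  NumA.add (NumA.mul (NumA.const 3) (NumA.var j)) (NumA.const 2)

theorem num_LL {m : ℕ} (j : Fin m) : NumA m (fun a => blockLen (NN (a j))) :=
  NumA.add (NumA.add (NumA.mul (NumA.mul (NumA.const 4) (NumA.add (num_NN j) (NumA.const 2)))
    (NumA.add (num_NN j) (NumA.const 2))) (NumA.mul (NumA.const 4)
      (NumA.add (num_NN j) (NumA.const 2)))) (NumA.const 1)

/-- the word of the gadgets of a letter, for the working alphabet -/
def bodyW (M p k : ℕ) : A → List A
  | .tick => encCols (gadCols (NN M) (blockLen (NN M)) (letterGadgets M p k .tick))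
  | .pos => encCols (gadCols (NN M) (blockLen (NN M)) (letterGadgets M p k .pos))
  | .neg => encCols (gadCols (NN M) (blockLen (NN M)) (letterGadgets M p k .neg))
  | .clause => encCols (gadCols (NN M) (blockLen (NN M)) (letterGadgets M p k .clause))
  | _ => []

theorem gen_bodyW {m : ℕ} {p k : (Fin m → ℕ) → ℕ} (j : Fin m) (hp : NumA m p) (hk : NumA m k)
    (c : A) : LGen m (fun x => bodyW (x j) (p x) (k x) c) := by
  cases c with
  | tick => exact gen_letter (num_NN j) (num_LL j) (NumA.var j) hp hk .tick
  | pos => exact gen_letter (num_NN j) (num_LL j) (NumA.var j) hp hk .pos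
  | neg => exact gen_letter (num_NN j) (num_LL j) (NumA.var j) hp hk .neg
  | clause => exact gen_letter (num_NN j) (num_LL j) (NumA.var j) hp hk .clause
  | e0 => exact LGen.const []
  | e1 => exact LGen.const []
  | e2 => exact LGen.const []
  | width => exact LGen.const []
  | net => exact LGen.const []
  | upper => exact LGen.const []
  | lower => exact LGen.const []

/-- the word of the gadgets of the letters of a word `u` -/
def lettersW (u : List A) : List A :=
  scan (fun q c => bodyW u.length q.length (tr A.tick q) c) [] u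

theorem gen_lettersW {m : ℕ} {F : (Fin m → List A) → List A} (hF : PGen m F) :
    PGen m (fun ρ => lettersW (F ρ)) := by
  have h3 : ∀ c, PGen (m + 3) (fun ρ : Fin (m + 3) → List A =>
      bodyW (ρ 2).length (ρ 1).length (ρ 0).length c) := fun c =>
    gen_bodyW (m := m + 3) 2 (NumA.var 1) (NumA.var 0) c
  have h2 : ∀ c, PGen (m + 2) (fun ρ : Fin (m + 2) → List A =>
      bodyW (ρ 1).length (ρ 0).length (tr A.tick (ρ 0)) c) := fun c =>
    PGen.congr (PGen.letG (PGen.tr A.tick A.tick (PGen.var (0 : Fin (m + 2))))
      (K := fun k ρ => bodyW (ρ 1).length (ρ 0).length k.length c) (h3 c)) (fun ρ => by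
        rw [List.length_replicate])
  have h1 : PGen (m + 1) (fun ρ : Fin (m + 1) → List A => lettersW (ρ 0)) :=
    PGen.loopG (PGen.var 0) (K := fun c q ρ =>
      bodyW (ρ 0).length q.length (tr A.tick q) c) (fun c => h2 c)
  exact PGen.letG hF (K := fun w _ => lettersW w) h1

theorem tr_map_inj (q : List FLetter) : tr A.tick (q.map inj) = tr (.tick : FLetter) q := by
  unfold tr
  rw [List.foldl_map]
  congr 1
  funext k c
  cases c <;> rfl

theorem scan_wordGadgets (M : ℕ) : ∀ (u q : List FLetter),
    scan (fun q c => bodyW M q.length (tr A.tick q) c) (q.map inj) (u.map inj) =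
      encCols (gadCols (NN M) (blockLen (NN M)) (wordGadgets M q.length
        (tr (.tick : FLetter) q) u))
  | [], q => rfl
  | c :: u, q => by
    rw [List.map_cons, scan, wordGadgets, gadCols_append, encCols_append]
    have h := scan_wordGadgets M u (q ++ [c])
    rw [tr_snoc, List.length_append, List.length_singleton, List.map_append, List.map_cons,
      List.map_nil] at h
    rw [h, tr_map_inj, List.length_map]
    congr 1
    cases c <;> rfl

/-- the word of all gadgets for the reversed formula `u` -/
def gadW (u : List A) : List A :=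
  encCols (gadCols (NN u.length) (blockLen (NN u.length))
    (.test (2 * u.length) (3 * u.length + 1) ::
    (List.range u.length).flatMap (fun v =>
      [.up (3 * u.length + 1) v (u.length + v), .down (3 * u.length + 1) v (u.length + v)]))) ++
  lettersW u

theorem gadW_map (u : List FLetter) :
    gadW (u.map inj) = encCols (gadCols (NN u.length) (blockLen (NN u.length)) (gadgets u)) := by
  have h := scan_wordGadgets u.length u []
  unfold gadW gadgets lettersW
  rw [List.map_nil, List.length_nil] at h
  simp only [List.length_map]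
  rw [h, ← encCols_append, ← gadCols_append]
  rfl

theorem gen_gadW {m : ℕ} {F : (Fin m → List A) → List A} (hF : PGen m F) :
    PGen m (fun ρ => gadW (F ρ)) := by
  have hM : NumA (m + 1) (fun a => a 0) := NumA.var 0
  have hM' : NumA (m + 2) (fun a => a 1) := NumA.var 1
  have hc : ∀ {m} c, NumA m (fun _ => c) := fun c => NumA.const c
  have g1 : GGen (m + 1) (fun a => NN (a 0)) (fun a => blockLen (NN (a 0)))
      (fun a => [.test (2 * a 0) (3 * a 0 + 1)]) :=
    GGen.test (num_NN 0) (num_LL 0) (NumA.mul (hc 2) hM) (NumA.add (NumA.mul (hc 3) hM) (hc 1))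
  have g2 : GGen (m + 2) (fun a => NN (a 1)) (fun a => blockLen (NN (a 1)))
      (fun a => [.up (3 * a 1 + 1) (a 0) (a 1 + a 0), .down (3 * a 1 + 1) (a 0) (a 1 + a 0)]) :=
    GGen.append (GGen.up (num_NN 1) (num_LL 1) (NumA.add (NumA.mul (hc 3) hM') (hc 1))
      (NumA.var 0) (NumA.add hM' (NumA.var 0)))
      (GGen.down (num_NN 1) (num_LL 1) (NumA.add (NumA.mul (hc 3) hM') (hc 1))
      (NumA.var 0) (NumA.add hM' (NumA.var 0)))
  have g3 : GGen (m + 1) (fun a => NN (a 0)) (fun a => blockLen (NN (a 0)))
      (fun a => (List.range (a 0)).flatMap (fun v =>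
      [.up (3 * a 0 + 1) v (a 0 + v), .down (3 * a 0 + 1) v (a 0 + v)])) := by
    refine LGen.congr (LGen.loopR hM (K := fun v a => encCols (gadCols (NN (a 0))
      (blockLen (NN (a 0))) [.up (3 * a 0 + 1) v (a 0 + v), .down (3 * a 0 + 1) v (a 0 + v)]))
      g2) (fun a => ?_)
    rw [gadCols_flatMap, encCols_flatMap]
  have g4 : PGen (m + 1) (fun ρ : Fin (m + 1) → List A => gadW (ρ 0)) :=
    PGen.append (GGen.append g1 g3) (gen_lettersW (PGen.var 0))
  exact PGen.letG hF (K := fun w _ => gadW w) g4

/-- the word of all columns for the reversed formula `u` -/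
def colsW (u : List A) : List A :=
  encCols (side (NN u.length)) ++ (encCols (blk (blockLen (NN u.length))) ++ (gadW u ++
    (encCols (tall (NN u.length) (blockLen (NN u.length))) ++ encCols (side (NN u.length)))))

theorem colsW_map (u : List FLetter) :
    colsW (u.map inj) = encCols (cols (NN u.length) (blockLen (NN u.length)) (gadgets u)) := by
  unfold colsW cols
  rw [gadW_map, List.length_map]
  simp only [encCols_append]
  rfl

theorem gen_colsW {m : ℕ} {F : (Fin m → List A) → List A} (hF : PGen m F) :
    PGen m (fun ρ => colsW (F ρ)) := by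
  have h1 : PGen (m + 1) (fun ρ : Fin (m + 1) → List A => colsW (ρ 0)) :=
    PGen.append (gen_side (num_NN (m := m + 1) 0)) (PGen.append (gen_blk (num_LL (m := m + 1) 0))
      (PGen.append (gen_gadW (PGen.var 0)) (PGen.append
        (gen_tall (num_NN (m := m + 1) 0) (num_LL (m := m + 1) 0))
        (gen_side (num_NN (m := m + 1) 0)))))
  exact PGen.letG hF (K := fun w _ => colsW w) h1

theorem colsW_formula (F : CNF) : colsW (((encodeCNF F).map inj).reverse) = encCols (colsOf F) := by
  rw [← List.map_reverse, colsW_map, List.length_reverse]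
  rfl

end Pool.Agent.Helper53_Chan
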