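import Pool.Agent.Helper53_Chan.Columns

/-!
# The reduction from satisfiability to channel routing is computable in polynomial time
-/

namespace Pool.Agent.Helper53_Chan

open Pool.Agent.Helper53_CookLevin Pool.Agent.Helper64_Chan Turing
open Pool.Agent.Common_CookLevin (encodeCNF CNF)
open Pool.Agent.Helper32_Poly

/-- last letter of the word of a column -/
def isCol : A → Bool
  | .e0 => true
  | .e2 => true
  | _ => false

theorem tr_append_replicate (w : List A) (n : ℕ) :
    tr A.tick (w ++ List.replicate n A.tick) = tr A.tick w + n := by
  induction n with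
  | zero => simp
  | succ n ih =>
    rw [List.replicate_succ', ← List.append_assoc, tr_snoc, if_pos rfl, ih]
    omega

theorem cnt_append_replicate (w : List A) (n : ℕ) :
    cnt isCol (w ++ List.replicate n A.tick) = cnt isCol w := by
  rw [cnt_append]
  have : cnt isCol (List.replicate n A.tick) = 0 := by
    unfold cnt
    rw [List.filter_replicate_of_neg (by simp [isCol])]
    rfl
  omega

theorem scan_ticks (f : List A → A → List A) (hf : ∀ p, f p .tick = []) : ∀ (n : ℕ) (p : List A),
    scan f p (List.replicate n .tick) = []
  | 0, _ => rfl
  | n + 1, p => by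
    rw [List.replicate_succ, scan, hf, scan_ticks f hf n]
    rfl

theorem scan_col (f : List A → A → List A) (hf : ∀ p, f p .tick = []) (p : List A) (a b : ℕ) :
    scan f p (encCol (some (a, b))) = f (p ++ List.replicate a .tick) .e1 ++
      f (p ++ List.replicate a .tick ++ [.e1] ++ List.replicate b .tick) .e2 := by
  unfold encCol
  simp only [scan_append, scan_ticks f hf, scan, List.nil_append, List.append_nil]

theorem tr_col (p : List A) (c : Column) : tr A.tick (p ++ encCol c) = 0 := by
  rcases c with _ | ⟨a, b⟩
  · show tr A.tick (p ++ [A.e0]) = 0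
    rw [tr_snoc, if_neg (by simp)]
  · have : p ++ encCol (some (a, b)) = (p ++ List.replicate a A.tick ++ [A.e1] ++
        List.replicate b A.tick) ++ [A.e2] := by simp [encCol]
    rw [this, tr_snoc, if_neg (by simp)]

theorem cnt_col (p : List A) (c : Column) : cnt isCol (p ++ encCol c) = cnt isCol p + 1 := by
  rcases c with _ | ⟨a, b⟩
  · show cnt isCol (p ++ [A.e0]) = _
    rw [cnt_append]
    rfl
  · have : p ++ encCol (some (a, b)) = (p ++ List.replicate a A.tick ++ [A.e1] ++
        List.replicate b A.tick) ++ [A.e2] := by simp [encCol]
    rw [this, cnt_append, cnt_append_replicate, cnt_append, cnt_append_replicate]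
    rfl

theorem cnt_cols : ∀ (cs : List Column) (p : List A),
    cnt isCol (p ++ encCols cs) = cnt isCol p + cs.length
  | [], p => by simp [encCols]
  | c :: cs, p => by
    rw [encCols_cons, ← List.append_assoc, cnt_cols cs, cnt_col, List.length_cons]
    omega

/-- upper terminals of the net `e` -/
def topF (e : ℕ) (p : List A) (c : A) : List A :=
  if c = .e1 then (if tr A.tick p = e then .upper :: List.replicate (1 + cnt isCol p) .tick else [])
  else []

/-- lower terminals of the net `e` -/
def botF (e : ℕ) (p : List A) (c : A) : List A :=
  if c = .e2 then (if tr A.tick p = e then .lower :: List.replicate (1 + cnt isCol p) .tick else [])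
  else []

/-- nets of the columns without net -/
def noneF (p : List A) (c : A) : List A :=
  if c = .e0 then .net :: (.upper :: List.replicate (1 + cnt isCol p) .tick ++
    .lower :: List.replicate (1 + cnt isCol p) .tick)
  else []

theorem scan_top (e : ℕ) : ∀ (cs : List Column) (p : List A), tr A.tick p = 0 →
    scan (topF e) p (encCols cs) = (colIdx (hasTop e) (1 + cnt isCol p) cs).flatMap
      (fun t => .upper :: List.replicate t .tick)
  | [], _, _ => rfl
  | c :: cs, p, hp => by
    rw [encCols_cons, scan_append, scan_top e cs (p ++ encCol c) (tr_col p c), cnt_col]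
    have e1 : 1 + (cnt isCol p + 1) = 1 + cnt isCol p + 1 := by omega
    rw [e1, colIdx]
    rcases c with _ | ⟨a, b⟩
    · have h1 : scan (topF e) p (encCol none) = [] := rfl
      have h2 : hasTop e none = false := rfl
      rw [h1, h2]
      rfl
    · rw [scan_col _ (fun _ => rfl)]
      have h2 : ∀ q, topF e q .e2 = [] := fun _ => rfl
      rw [h2, List.append_nil]
      have h3 : topF e (p ++ List.replicate a .tick) .e1 =
          if a = e then .upper :: List.replicate (1 + cnt isCol p) .tick else [] := by
        unfold topF
        rw [if_pos rfl, tr_append_replicate, hp, Nat.zero_add, cnt_append_replicate]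
      rw [h3]
      have h4 : hasTop e (some (a, b)) = (a == e) := rfl
      rw [h4]
      by_cases h : a = e
      · rw [if_pos h, if_pos (by simpa using h), List.flatMap_cons]
      · rw [if_neg h, if_neg (by simpa using h)]
        rfl

theorem scan_bot (e : ℕ) : ∀ (cs : List Column) (p : List A),
    scan (botF e) p (encCols cs) = (colIdx (hasBot e) (1 + cnt isCol p) cs).flatMap
      (fun t => .lower :: List.replicate t .tick)
  | [], _ => rfl
  | c :: cs, p => by
    rw [encCols_cons, scan_append, scan_bot e cs (p ++ encCol c), cnt_col]
    have e1 : 1 + (cnt isCol p + 1) = 1 + cnt isCol p + 1 := by omega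
    rw [e1, colIdx]
    rcases c with _ | ⟨a, b⟩
    · have h1 : scan (botF e) p (encCol none) = [] := rfl
      have h2 : hasBot e none = false := rfl
      rw [h1, h2]
      rfl
    · rw [scan_col _ (fun _ => rfl)]
      have h2 : ∀ q, botF e q .e1 = [] := fun _ => rfl
      rw [h2, List.nil_append]
      have h3 : botF e (p ++ List.replicate a .tick ++ [.e1] ++ List.replicate b .tick) .e2 =
          if b = e then .lower :: List.replicate (1 + cnt isCol p) .tick else [] := by
        unfold botF
        rw [if_pos rfl, tr_append_replicate, tr_snoc, if_neg (show ¬ A.e1 = A.tick by simp),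
          Nat.zero_add, cnt_append_replicate, cnt_append, cnt_append_replicate]
        rfl
      rw [h3]
      have h4 : hasBot e (some (a, b)) = (b == e) := rfl
      rw [h4]
      by_cases h : b = e
      · rw [if_pos h, if_pos (by simpa using h), List.flatMap_cons]
      · rw [if_neg h, if_neg (by simpa using h)]
        rfl

theorem scan_none : ∀ (cs : List Column) (p : List A),
    scan noneF p (encCols cs) = (colIdx Option.isNone (1 + cnt isCol p) cs).flatMap
      (fun t => .net :: (.upper :: List.replicate t .tick ++ .lower :: List.replicate t .tick))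
  | [], _ => rfl
  | c :: cs, p => by
    rw [encCols_cons, scan_append, scan_none cs (p ++ encCol c), cnt_col]
    have e1 : 1 + (cnt isCol p + 1) = 1 + cnt isCol p + 1 := by omega
    rw [e1, colIdx]
    rcases c with _ | ⟨a, b⟩
    · have h1 : scan noneF p (encCol none) = noneF p .e0 ++ [] := rfl
      rw [h1, List.append_nil]
      rfl
    · rw [scan_col _ (fun _ => rfl)]
      rfl

/-! ### The output word -/

/-- letters of the output in the working alphabet -/
def emb : Letter → A
  | .width => .width
  | .net => .net
  | .upper => .upper
  | .lower => .lower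
  | .tick => .tick

/-- reading letters of the working alphabet -/
def toL : A → List Letter
  | .width => [.width]
  | .net => [.net]
  | .upper => [.upper]
  | .lower => [.lower]
  | .tick => [.tick]
  | _ => []

theorem toL_emb : ∀ w : List Letter, (w.map emb).flatMap toL = w
  | [] => rfl
  | c :: w => by
    rw [List.map_cons, List.flatMap_cons, toL_emb w]
    cases c <;> rfl

/-- the output word for a column word `v` and a formula of length `M` -/
def outW (M : ℕ) (v : List A) : List A :=
  List.replicate (cnt isCol v) .tick ++ (.width :: (List.replicate (NN M + 2) .tick ++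
    ((List.range (NN M + 2)).flatMap (fun e => .net :: (scan (topF e) [] v ++ scan (botF e) [] v)) ++
      scan noneF [] v)))

theorem outW_cols (M : ℕ) (cs : List Column) :
    outW M (encCols cs) = (encRaw cs.length (netsOf (NN M + 2) cs) (NN M + 2)).map emb := by
  have h0 : cnt isCol (encCols cs) = cs.length := by
    have := cnt_cols cs []
    rw [List.nil_append] at this
    rw [this]
    show 0 + _ = _
    omega
  unfold outW encRaw netsOf
  rw [h0, scan_none cs []]
  simp only [List.map_append, List.map_cons, List.map_replicate, List.flatMap_append,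
    List.flatMap_map, List.map_flatMap]
  have e1 : ∀ e, scan (topF e) [] (encCols cs) = _ := fun e => scan_top e cs [] rfl
  have e2 : ∀ e, scan (botF e) [] (encCols cs) = _ := fun e => scan_bot e cs []
  simp only [e1, e2]
  simp only [encNet, List.map_cons, List.map_append, List.map_flatMap, List.map_replicate,
    List.flatMap_cons, List.flatMap_nil, List.append_nil]
  rfl

theorem gen_outW : PGen 2 (fun ρ : Fin 2 → List A => outW (ρ 1).length (ρ 0)) := by
  have hw : ∀ {m} (j : Fin m), PGen m (fun ρ : Fin m → List A =>
      List.replicate (NN (ρ j).length + 2) A.tick) := fun j =>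
    NumA.add (num_NN j) (NumA.const 2) A.tick
  have hcnt : ∀ {m} (j : Fin m), PGen m (fun ρ : Fin m → List A =>
      List.replicate (1 + cnt isCol (ρ j)) A.tick) := fun {m} j =>
    PGen.congr (PGen.append (PGen.const [A.tick]) (PGen.cnt isCol A.tick (PGen.var j)))
      (fun ρ => by
        rw [List.replicate_add]
        rfl)
  -- the body for the terminals
  have hbody : ∀ x y : A, ∀ c : A, PGen 4 (fun ρ : Fin 4 → List A =>
      if c = x then (if tr A.tick (ρ 0) = (ρ 1).length then
        y :: List.replicate (1 + cnt isCol (ρ 0)) .tick else []) else []) := by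
    intro x y c
    by_cases h : c = x
    · simp only [h, if_true]
      have ht : Test 4 (fun ρ : Fin 4 → List A => tr A.tick (ρ 0) = (ρ 1).length) :=
        Test.congr (Test.lenEq (PGen.tr A.tick A.tick (PGen.var (0 : Fin 4))) (PGen.var 1))
          (fun ρ => by rw [List.length_replicate])
      exact Test.ite ht (PGen.append (PGen.const [y]) (hcnt 0)) (PGen.const [])
    · simp only [h, if_false]
      exact PGen.const []
  have htop : PGen 3 (fun ρ : Fin 3 → List A => scan (topF (ρ 0).length) [] (ρ 1)) :=
    PGen.loopG (PGen.var (1 : Fin 3)) (K := fun c p ρ => topF (ρ 0).length p c)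
      (fun c => hbody .e1 .upper c)
  have hbot : PGen 3 (fun ρ : Fin 3 → List A => scan (botF (ρ 0).length) [] (ρ 1)) :=
    PGen.loopG (PGen.var (1 : Fin 3)) (K := fun c p ρ => botF (ρ 0).length p c)
      (fun c => hbody .e2 .lower c)
  have hnone : PGen 2 (fun ρ : Fin 2 → List A => scan noneF [] (ρ 0)) := by
    refine PGen.loopG (PGen.var (0 : Fin 2)) (K := fun c p _ => noneF p c) (fun c => ?_)
    unfold noneF
    by_cases h : c = .e0
    · simp only [h, if_true]
      exact PGen.append (PGen.const [A.net]) (PGen.append (PGen.append (PGen.const [A.upper])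
        (hcnt 0)) (PGen.append (PGen.const [A.lower]) (hcnt 0)))
    · simp only [h, if_false]
      exact PGen.const []
  have hnets : PGen 2 (fun ρ : Fin 2 → List A => (List.range (NN (ρ 1).length + 2)).flatMap
      (fun e => .net :: (scan (topF e) [] (ρ 0) ++ scan (botF e) [] (ρ 0)))) := by
    refine PGen.congr (PGen.loopRange (hw 1) (K := fun e ρ =>
      .net :: (scan (topF e.length) [] (ρ 0) ++ scan (botF e.length) [] (ρ 0)))
      (PGen.append (PGen.const [A.net]) (PGen.append htop hbot))) (fun ρ => ?_)
    simp only [List.length_replicate]
  exact PGen.append (PGen.cnt isCol A.tick (PGen.var 0)) (PGen.append (PGen.const [A.width])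
    (PGen.append (hw 1) (PGen.append hnets hnone)))

/-- the whole reduction, on the working alphabet -/
theorem gen_all : PGen 1 (fun ρ : Fin 1 → List A =>
    outW (ρ 0).length (colsW (ρ 0).reverse)) :=
  PGen.letG (gen_colsW (PGen.reverse (PGen.var (0 : Fin 1))))
    (K := fun v ρ => outW (ρ 0).length v) gen_outW

theorem outW_formula (F : CNF) :
    outW ((encodeCNF F).map inj).length (colsW ((encodeCNF F).map inj).reverse) =
      (outWord F).map emb := by
  rw [colsW_formula, outW_cols, List.length_map]
  rfl

/-- The reduction from satisfiability to channel routing is computable in polynomial time. -/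
theorem outWord_polyTime :
    Nonempty (TM2ComputableInPolyTime encodeCNF (fun w : List Letter => w) outWord) := by
  have c1 : TM2ComputableInPolyTime encodeCNF (id : List A → List A)
      (fun F => (encodeCNF F).map inj) :=
    morphComputable encodeCNF id _ [] (fun b => [inj b]) (fun F => by
      show (encodeCNF F).map inj = [] ++ (encodeCNF F).flatMap (fun b => [inj b])
      rw [List.nil_append]
      induction encodeCNF F with
      | nil => rfl
      | cons b x ih => rw [List.map_cons, List.flatMap_cons, ih]; rfl)
  obtain ⟨c2⟩ := pgen_computable _ gen_all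
  have c3 : TM2ComputableInPolyTime (id : List A → List A) (fun w : List Letter => w)
      (fun w => w.flatMap toL) :=
    morphComputable id (fun w => w) _ [] toL (fun w => by
      rw [List.nil_append]
      rfl)
  obtain ⟨c4⟩ := TM2ComputableInPolyTime.comp c1 c2
  obtain ⟨c5⟩ := TM2ComputableInPolyTime.comp c4 c3
  refine ⟨⟨c5.toTM2ComputableAux, c5.time, fun F => ?_⟩⟩
  have h := c5.outputsFun F
  have e : (((fun w : List A => w.flatMap toL) ∘ ((fun w : List A =>
      outW ((![w] : Fin 1 → List A) 0).length (colsW ((![w] : Fin 1 → List A) 0).reverse)) ∘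
      fun F : CNF => (encodeCNF F).map inj)) F) = outWord F := by
    show (outW ((encodeCNF F).map inj).length (colsW ((encodeCNF F).map inj).reverse)).flatMap toL
      = outWord F
    rw [outW_formula, toL_emb]
  rw [e] at h
  exact h

end Pool.Agent.Helper53_Chan
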